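import Pool.Agent.Helper32.Cheeger.Polygon

/-!
# Regular polygons do not minimise the anisotropic Cheeger functional of the disk

For every even `n ≥ 22` there is a centrally symmetric convex polygon `P` with exactly `n` sides
such that `𝒥_B[P] < 𝒥_B[P*_n]`, where `B` is the open unit disk and `P*_n` is the regular `n`-gon
circumscribed about `B`. The polygon `P` is close to a square.

The definitions (`IsK2`, `IsNGon`, `polarNorm`, `polarSet`, `divergence`, `perimeter`, `cheeger`,
`J`, `disk`, `regularPolygon`) are in `Pool.Agent.Helper32.Cheeger.Defs`.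

Idea: `h_K(B) ≥ 2` for every `K ⊇ B` (test field `x`), and the polar set of `P*_n` contains the disk
of radius `cos (π / n)`, so that `𝒥_B[P*_n] ≥ 2 √π cos (π / n) > 3.508` for `n ≥ 22`. For a square
the set `B ∩ (-12/13, 12/13)²` shows that the functional is less than `3.507`, and a square is
a limit of `n`-gons.
-/

set_option autoImplicit false

open Set
open Pool.Agent.Helper32.Cheeger

namespace Pool.Agent.Results.MP_4eea03_an.RegularNotOptimal

/-- For every even `n ≥ 22` the regular `n`-gon circumscribed about the unit disk does not minimise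
`𝒥_B` among the centrally symmetric convex polygons with exactly `n` sides. -/
theorem result (n : ℕ) (hn : Even n) (h22 : 22 ≤ n) :
    ∃ P : Set (ℝ × ℝ), IsNGon n P ∧ J disk P < J disk (regularPolygon n) := by
  obtain ⟨m, hm⟩ : ∃ m, n = 4 + 2 * m := by
    obtain ⟨r, hr⟩ := hn
    exact ⟨r - 2, by omega⟩
  refine ⟨P m, ?_, (J_P_lt m).trans_le (J_regular_gt h22)⟩
  have := isNGon_P m
  rwa [← hm] at this

end Pool.Agent.Results.MP_4eea03_an.RegularNotOptimal
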